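import Mathlib

set_option autoImplicit false

namespace Pool.Agent.Results.MP_4bcb19_an.No

open Polynomial

/-- signed curvature of the graph -/
noncomputable def κ (p : ℝ[X]) (x : ℝ) : ℝ :=
  (derivative (derivative p)).eval x / (1 + (derivative p).eval x ^ 2) ^ (3 / 2 : ℝ)

theorem result : ∃ p : ℝ[X], p.natDegree = 4 ∧ Differentiable ℝ (κ p) ∧
    {x | deriv (κ p) x = 0} ⊆ {0} ∧ {x | IsLocalExtr (κ p) x} ⊆ {0} := by
  have e : κ (X ^ 4 + C 2 * X ^ 2) = fun x =>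
      (12 * x ^ 2 + 4) * (1 + (4 * x ^ 3 + 4 * x) ^ 2) ^ (-(3 / 2) : ℝ) := by
    ext x
    rw [κ, Real.rpow_neg (by positivity), div_eq_mul_inv]
    congr 3 <;> simp <;> ring
  have d : ∀ x : ℝ, HasDerivAt (κ (X ^ 4 + C 2 * X ^ 2)) ((24 * x * (1 + (4 * x ^ 3 + 4 * x) ^ 2) -
      3 * (4 * x ^ 3 + 4 * x) * (12 * x ^ 2 + 4) ^ 2) *
      (1 + (4 * x ^ 3 + 4 * x) ^ 2) ^ (-(3 / 2) - 1 : ℝ)) x := fun x => by
    have h1 : HasDerivAt (fun x : ℝ => 12 * x ^ 2 + 4) (24 * x) x :=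
      (((hasDerivAt_pow 2 x).const_mul 12).add_const 4).congr_deriv (by norm_num; ring)
    have h2 : HasDerivAt (fun x : ℝ => 4 * x ^ 3 + 4 * x) (12 * x ^ 2 + 4) x :=
      (((hasDerivAt_pow 3 x).const_mul 4).add ((hasDerivAt_id x).const_mul 4)).congr_deriv
        (by norm_num; ring)
    have p0 : 1 + (4 * x ^ 3 + 4 * x) ^ 2 ≠ 0 := by positivity
    rw [e]
    refine (h1.mul (((h2.pow 2).const_add 1).rpow_const (Or.inl p0))).congr_deriv ?_
    simp only [Pi.pow_apply, Real.rpow_sub_one p0]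
    field_simp
    ring
  have s : {x | deriv (κ (X ^ 4 + C 2 * X ^ 2)) x = 0} ⊆ {0} := fun x hx => by
    rw [Set.mem_ofPred_eq, (d x).deriv, mul_eq_zero] at hx
    rcases hx with h | h
    · have : x * (-168 - 960 * x ^ 2 - 2112 * x ^ 4 - 1344 * x ^ 6) = 0 := by linarith
      refine (mul_eq_zero.1 this).resolve_right (ne_of_lt ?_)
      nlinarith [sq_nonneg x, sq_nonneg (x ^ 2), sq_nonneg (x ^ 3)]
    · exact absurd h (by positivity)
  exact ⟨_, by compute_degree!, fun x => (d x).differentiableAt, s, fun x hx => s hx.deriv_eq_zero⟩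

end Pool.Agent.Results.MP_4bcb19_an.No
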